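import Pool.Agent.H947R3.Stab
import Pool.Agent.Y520.AR.Stm

/-!
# Project AR: energy bound for `(u - k)₊` with advection
-/

set_option autoImplicit false

open MeasureTheory Set Filter Topology Laplacian InnerProductSpace
open scoped ContDiff

namespace Pool.Agent.Y348.AR

open Pool.Agent.H947R3 Pool.Agent.Y520.AR

variable {n : ℕ}

lemma norm_sq_le_sum (L : E n →L[ℝ] ℝ) : ‖L‖ ^ 2 ≤ ∑ i, (L (bv i)) ^ 2 := by
  have h0 : 0 ≤ ∑ i, (L (bv i)) ^ 2 := Finset.sum_nonneg fun i _ => sq_nonneg _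
  have h1 : ‖L‖ ≤ Real.sqrt (∑ i, (L (bv i)) ^ 2) := by
    apply L.opNorm_le_bound (Real.sqrt_nonneg _)
    intro v
    have h2 : L v = ∑ i, v i * L (bv i) := by
      conv_lhs => rw [← (EuclideanSpace.basisFun (Fin n) ℝ).sum_repr v]
      rw [map_sum]
      refine Finset.sum_congr rfl fun i _ => ?_
      rw [map_smul]
      rfl
    rw [h2, Real.norm_eq_abs]
    have h3 : (∑ i, v i * L (bv i)) ^ 2 ≤ (∑ i, v i ^ 2) * ∑ i, (L (bv i)) ^ 2 :=
      Finset.sum_mul_sq_le_sq_mul_sq _ _ _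
    have h4 : ‖v‖ ^ 2 = ∑ i, v i ^ 2 := by
      rw [EuclideanSpace.norm_sq_eq]
      simp
    rw [← h4] at h3
    have h5 : |∑ i, v i * L (bv i)| ^ 2 ≤ (Real.sqrt (∑ i, (L (bv i)) ^ 2) * ‖v‖) ^ 2 := by
      rw [sq_abs, mul_pow, Real.sq_sqrt h0]; linarith
    exact (abs_le_of_sq_le_sq' h5 (by positivity)).2 |>.trans' (le_refl _)
  calc ‖L‖ ^ 2 ≤ (Real.sqrt (∑ i, (L (bv i)) ^ 2)) ^ 2 := by gcongr
    _ = _ := Real.sq_sqrt h0

/-! ### Compositions -/

section
variable {Ω : Set (E n)} {u : E n → ℝ} {Θ : ℝ → ℝ} {k : ℝ}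

lemma superlevel_compact (hΩ : IsOpen Ω) (hb : Bornology.IsBounded Ω) (h : Ad Ω u) (hk : 0 < k) :
    IsCompact {x | x ∈ Ω ∧ k ≤ u x} := by
  have h1 : {x | x ∈ Ω ∧ k ≤ u x} = closure Ω ∩ u ⁻¹' (Ici k) := by
    ext x
    constructor
    · rintro ⟨h1, h2⟩
      exact ⟨subset_closure h1, h2⟩
    · rintro ⟨h1, h2⟩
      refine ⟨?_, h2⟩
      by_contra hx
      have : x ∈ frontier Ω := by
        rw [frontier, hΩ.interior_eq]; exact ⟨h1, hx⟩
      have h3 := h.bdry x this
      have h4 : k ≤ u x := h2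
      linarith
  rw [h1]
  have h2 : IsClosed (closure Ω ∩ u ⁻¹' (Ici k)) :=
    h.cont.preimage_isClosed_of_isClosed isClosed_closure isClosed_Ici
  exact hb.isCompact_closure.of_isClosed_subset h2 inter_subset_left

lemma tsupport_cmp (hΩ : IsOpen Ω) (hb : Bornology.IsBounded Ω) (h : Ad Ω u) (hk : 0 < k)
    (hz : ∀ t ≤ k, Θ t = 0) : tsupport (cmp Ω Θ u) ⊆ {x | x ∈ Ω ∧ k ≤ u x} := by
  apply closure_minimal _ (superlevel_compact hΩ hb h hk).isClosed
  intro x hx
  have hxΩ : x ∈ Ω := by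
    by_contra hcon
    exact hx (by simp [H947R3.cmp, hcon])
  refine ⟨hxΩ, ?_⟩
  by_contra hcon
  push Not at hcon
  apply hx
  simp [H947R3.cmp, hxΩ, hz _ hcon.le]

lemma hcs_cmp (hΩ : IsOpen Ω) (hb : Bornology.IsBounded Ω) (h : Ad Ω u) (hk : 0 < k)
    (hz : ∀ t ≤ k, Θ t = 0) : HasCompactSupport (cmp Ω Θ u) :=
  (superlevel_compact hΩ hb h hk).of_isClosed_subset (isClosed_tsupport _)
    (tsupport_cmp hΩ hb h hk hz)

lemma tsupport_sub (hΩ : IsOpen Ω) (hb : Bornology.IsBounded Ω) (h : Ad Ω u) (hk : 0 < k)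
    (hz : ∀ t ≤ k, Θ t = 0) : tsupport (cmp Ω Θ u) ⊆ Ω :=
  (tsupport_cmp hΩ hb h hk hz).trans (fun _ hx => hx.1)

lemma contDiff_cmp (hΩ : IsOpen Ω) (hb : Bornology.IsBounded Ω) (h : Ad Ω u) (hk : 0 < k)
    (hz : ∀ t ≤ k, Θ t = 0) (hΘ : ContDiff ℝ 1 Θ) : ContDiff ℝ 1 (cmp Ω Θ u) := by
  apply contDiff_of_tsupp
  intro x hx
  have hxΩ := tsupport_sub hΩ hb h hk hz hx
  have h1 : ContDiffAt ℝ 1 u x := (h.c2.contDiffAt (hΩ.mem_nhds hxΩ)).of_le (by norm_num)
  exact (hΘ.contDiffAt.comp x h1).congr_of_eventuallyEq (cmp_eventuallyEq hΩ hxΩ)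

lemma continuous_cmp (hΩ : IsOpen Ω) (hb : Bornology.IsBounded Ω) (h : Ad Ω u) (hk : 0 < k)
    (hz : ∀ t ≤ k, Θ t = 0) (hΘ : Continuous Θ) : Continuous (cmp Ω Θ u) := by
  apply continuous_of_tsupport
  intro x hx
  have hxΩ := tsupport_sub hΩ hb h hk hz hx
  have h1 : ContinuousAt u x := h.c2.continuousOn.continuousAt (hΩ.mem_nhds hxΩ)
  exact (hΘ.continuousAt.comp h1).congr (cmp_eventuallyEq hΩ hxΩ).symm

lemma integrable_cmp (hΩ : IsOpen Ω) (hb : Bornology.IsBounded Ω) (h : Ad Ω u) (hk : 0 < k)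
    (hz : ∀ t ≤ k, Θ t = 0) (hΘ : Continuous Θ) : Integrable (cmp Ω Θ u) :=
  (continuous_cmp hΩ hb h hk hz hΘ).integrable_of_hasCompactSupport (hcs_cmp hΩ hb h hk hz)

lemma fderiv_cmp (hΩ : IsOpen Ω) (h : Ad Ω u) {θ' : ℝ} {x : E n} (hx : x ∈ Ω)
    (hΘ : HasDerivAt Θ θ' (u x)) : fderiv ℝ (cmp Ω Θ u) x = θ' • fderiv ℝ u x := by
  rw [(cmp_eventuallyEq hΩ hx).fderiv_eq]
  have h1 : DifferentiableAt ℝ u x :=
    (h.c2.contDiffAt (hΩ.mem_nhds hx)).differentiableAt (by norm_num)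
  have h2 := hΘ.comp_hasFDerivAt x h1.hasFDerivAt
  have h3 : HasFDerivAt (fun y => Θ (u y)) (θ' • fderiv ℝ u x) x := h2
  exact h3.fderiv

lemma fderiv_cmp_out (hΩ : IsOpen Ω) (hb : Bornology.IsBounded Ω) (h : Ad Ω u) (hk : 0 < k)
    (hz : ∀ t ≤ k, Θ t = 0) {x : E n} (hx : x ∉ Ω) : fderiv ℝ (cmp Ω Θ u) x = 0 :=
  fderiv_of_notMem_tsupport _ fun hh => hx (tsupport_sub hΩ hb h hk hz hh)

lemma cmp_in {x : E n} (hx : x ∈ Ω) : cmp Ω Θ u x = Θ (u x) := by
  simp [H947R3.cmp, hx]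

lemma cmp_out {x : E n} (hx : x ∉ Ω) : cmp Ω Θ u x = 0 := by
  simp [H947R3.cmp, hx]

end

/-! ### Primitives -/

section
variable {θ : ℝ → ℝ} {k : ℝ}

lemma PP_hasDeriv (hθ : Continuous θ) (t : ℝ) : HasDerivAt (PP θ) (θ t) t :=
  intervalIntegral.integral_hasDerivAt_right (hθ.intervalIntegrable _ _)
    (hθ.stronglyMeasurableAtFilter _ _) hθ.continuousAt

lemma PP_contDiff (hθ : Continuous θ) : ContDiff ℝ 1 (PP θ) := by
  rw [contDiff_one_iff_deriv]
  refine ⟨fun t => (PP_hasDeriv hθ t).differentiableAt, ?_⟩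
  have : deriv (PP θ) = θ := funext fun t => (PP_hasDeriv hθ t).deriv
  rw [this]
  exact hθ

lemma PP_zero (hz : ∀ t ≤ k, θ t = 0) (hk : 0 < k) : ∀ t ≤ k, PP θ t = 0 := by
  intro t ht
  unfold PP
  rw [intervalIntegral.integral_congr (g := fun _ => 0)]
  · simp
  · intro s hs
    apply hz
    rw [Set.mem_uIcc] at hs
    rcases hs with hs | hs
    · exact hs.2.trans ht
    · exact hs.2.trans hk.le

lemma PP_eq (hθ : Continuous θ) (hz : ∀ t ≤ k, θ t = 0) (hk : 0 < k) (t : ℝ) :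
    PP θ t = ∫ s in k..t, θ s := by
  have h1 := intervalIntegral.integral_add_adjacent_intervals
    (hθ.intervalIntegrable (μ := volume) 0 k) (hθ.intervalIntegrable (μ := volume) k t)
  have h2 : PP θ k = 0 := PP_zero hz hk k le_rfl
  unfold PP at h2 ⊢
  rw [← h1, h2, zero_add]

lemma PP_nonneg (hθ : Continuous θ) (hz : ∀ t ≤ k, θ t = 0) (hk : 0 < k) (h0 : ∀ t, 0 ≤ θ t)
    (t : ℝ) : 0 ≤ PP θ t := by
  rcases le_total t k with h | h
  · rw [PP_zero hz hk t h]
  · rw [PP_eq hθ hz hk]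
    exact intervalIntegral.integral_nonneg h fun s _ => h0 s

lemma PP_le (hθ : Continuous θ) (hz : ∀ t ≤ k, θ t = 0) (hk : 0 < k) {m t : ℝ} (hm : 0 ≤ m)
    (h1 : ∀ s ≤ t, θ s ≤ m) : PP θ t ≤ m * max (t - k) 0 := by
  rcases le_total t k with h | h
  · rw [PP_zero hz hk t h]
    positivity
  · rw [PP_eq hθ hz hk, max_eq_left (by linarith)]
    have h2 := intervalIntegral.integral_mono_on (μ := volume) (g := fun _ => m) h
      (hθ.intervalIntegrable _ _) (by simp) (fun s hs => h1 s hs.2)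
    simp only [intervalIntegral.integral_const, smul_eq_mul] at h2
    linarith

end

/-- the cutoff -/
noncomputable def th (k e s : ℝ) : ℝ := max 0 (min 1 ((s - k) / e))

lemma th_cont (k e : ℝ) : Continuous (th k e) := by
  unfold th
  fun_prop

lemma th_nonneg (k e s : ℝ) : 0 ≤ th k e s := le_max_left _ _

lemma th_le (k e s : ℝ) : th k e s ≤ 1 := max_le zero_le_one (min_le_left _ _)

lemma th_zero {k e : ℝ} (he : 0 < e) : ∀ s ≤ k, th k e s = 0 := by
  intro s hs
  unfold th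
  apply max_eq_left
  exact (min_le_right _ _).trans (div_nonpos_of_nonpos_of_nonneg (by linarith) he.le)

lemma th_one {k e s : ℝ} (he : 0 < e) (hs : k + e ≤ s) : th k e s = 1 := by
  unfold th
  have : 1 ≤ (s - k) / e := by
    rw [le_div_iff₀ he]
    linarith
  rw [min_eq_left this]
  simp

lemma PP_th_ge {k e : ℝ} (hk : 0 < k) (he : 0 < e) (s : ℝ) :
    max (s - k) 0 - e ≤ PP (th k e) s := by
  have h0 := PP_nonneg (th_cont k e) (th_zero he) hk (th_nonneg k e) s
  rcases le_total s (k + e) with h | h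
  · rcases le_total s k with h' | h'
    · rw [max_eq_right (by linarith)]
      linarith
    · rw [max_eq_left (by linarith)]
      linarith
  · rw [max_eq_left (by linarith), PP_eq (th_cont k e) (th_zero he) hk]
    have h1 := intervalIntegral.integral_add_adjacent_intervals
      ((th_cont k e).intervalIntegrable (μ := volume) k (k + e))
      ((th_cont k e).intervalIntegrable (μ := volume) (k + e) s)
    have h2 : 0 ≤ ∫ s in k..(k + e), th k e s :=
      intervalIntegral.integral_nonneg (by linarith) fun s _ => th_nonneg k e s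
    have h3 : ∫ s in (k + e)..s, th k e s = s - (k + e) := by
      rw [intervalIntegral.integral_congr (g := fun _ => (1 : ℝ))]
      · simp
      · intro r hr
        rw [Set.uIcc_of_le h] at hr
        exact th_one he hr.1
    rw [← h1, h3]
    linarith

lemma dv_le {Ω : Set (E n)} {c : E n → E n} {B : ℝ} (h : Drift Ω c B) {x : E n} (hx : x ∈ Ω) :
    |dv c x| ≤ n * B := by
  unfold dv
  refine (Finset.abs_sum_le_sum_abs _ _).trans ?_
  have : ∀ i ∈ (Finset.univ : Finset (Fin n)), |fderiv ℝ c x (bv i) i| ≤ B := by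
    intro i _
    have h1 : |fderiv ℝ c x (bv i) i| ≤ ‖fderiv ℝ c x (bv i)‖ := by
      have := PiLp.norm_apply_le (fderiv ℝ c x (bv i)) i
      simpa using this
    have h2 : ‖fderiv ℝ c x (bv i)‖ ≤ ‖fderiv ℝ c x‖ * ‖(bv i : E n)‖ :=
      (fderiv ℝ c x).le_opNorm _
    have h3 : ‖(bv i : E n)‖ = 1 := by
      rw [bv_eq]
      simp
    rw [h3, mul_one] at h2
    exact h1.trans (h2.trans (h.bd' x hx))
  refine (Finset.sum_le_sum this).trans ?_
  simp

/-- The energy estimate for the truncations. -/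
theorem energy (hD : S_DIVG) {Ω : Set (E n)} {c : E n → E n} {B K M k e : ℝ} {u : E n → ℝ}
    (hΩ : IsOpen Ω) (hb : Bornology.IsBounded Ω) (hc : Drift Ω c B) (hK : 0 < K) (h : Ad Ω u)
    (hM : ∀ x ∈ Ω, u x ≤ M) (hM0 : 0 ≤ M)
    (hle : ∀ x ∈ Ω, -(Δ u x) + fderiv ℝ u x (c x) ≤ K) (hk : 0 < k) (he : 0 < e) :
    ∫ x, ∑ i, (pd (cmp Ω (PP (th k e)) u) i x) ^ 2 ≤
      (K + n * B * M) * ∫ x in Ω, max (u x - k) 0 := by
  set θ := th k e with hθ
  have hθc : Continuous θ := th_cont k e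
  have hθz : ∀ s ≤ k, θ s = 0 := th_zero he
  set θ2 : ℝ → ℝ := fun s => θ s ^ 2 with hθ2
  have hθ2c : Continuous θ2 := hθc.pow 2
  have hθ2z : ∀ s ≤ k, θ2 s = 0 := fun s hs => by simp [hθ2, hθz s hs]
  have hθ20 : ∀ s, 0 ≤ θ2 s := fun s => sq_nonneg _
  have hθ21 : ∀ s, θ2 s ≤ 1 := fun s => by
    have h1 := th_nonneg k e s
    have h2 := th_le k e s
    simp only [hθ2, hθ]
    nlinarith
  set P := PP θ2 with hP
  have hPc : Continuous P := (PP_contDiff hθ2c).continuous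
  have hPz : ∀ s ≤ k, P s = 0 := PP_zero hθ2z hk
  have hP0 : ∀ s, 0 ≤ P s := PP_nonneg hθ2c hθ2z hk hθ20
  have hP1 : ∀ s, P s ≤ max (s - k) 0 := fun s => by
    have := PP_le hθ2c hθ2z hk zero_le_one (t := s) (fun r _ => hθ21 r)
    linarith
  set Q := PP P with hQ
  have hQz : ∀ s ≤ k, Q s = 0 := PP_zero hPz hk
  have hQ0 : ∀ s, 0 ≤ Q s := PP_nonneg hPc hPz hk hP0
  have hQ1 : ∀ s ≤ M, Q s ≤ M * max (s - k) 0 := fun s hs => by
    have h1 := PP_le hPc hPz hk (le_max_right (s - k) 0) (t := s) (fun r hr =>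
      (hP1 r).trans (max_le_max (by linarith) le_rfl))
    refine h1.trans ?_
    apply mul_le_mul_of_nonneg_right _ (le_max_right _ _)
    exact max_le (by linarith) hM0
  set φ := cmp Ω (PP θ) u with hφ
  set ψ := cmp Ω P u with hψ
  set q := cmp Ω Q u with hq
  have hmc : Continuous (fun s : ℝ => max (s - k) 0) := by fun_prop
  have hmz : ∀ s ≤ k, max (s - k) 0 = 0 := fun s hs => max_eq_right (by linarith)
  set Y := cmp Ω (fun s => max (s - k) 0) u with hY
  have hYint : Integrable Y := integrable_cmp hΩ hb h hk hmz hmc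
  have hYeq : ∫ x in Ω, max (u x - k) 0 = ∫ x, Y x := by
    rw [← integral_indicator hΩ.measurableSet]
    rfl
  have hψ1 := contDiff_cmp hΩ hb h hk hPz (PP_contDiff hθ2c)
  have hψs := hcs_cmp hΩ hb h hk hPz
  have hψt := tsupport_sub hΩ hb h hk hPz
  have hibp := ibp hΩ h.c2 hψ1 hψs hψt
  have e1 : (fun x => ∑ i, (pd φ i x) ^ 2) = fun x => ∑ i, pd u i x * pd ψ i x := by
    funext x
    refine Finset.sum_congr rfl fun i _ => ?_
    by_cases hx : x ∈ Ω
    · unfold pd
      rw [hφ, hψ, fderiv_cmp hΩ h hx (PP_hasDeriv hθc (u x)),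
        fderiv_cmp hΩ h hx (PP_hasDeriv hθ2c (u x))]
      simp only [_root_.smul_apply, smul_eq_mul, hθ2]
      ring
    · unfold pd
      rw [hφ, hψ, fderiv_cmp_out hΩ hb h hk (PP_zero hθz hk) hx,
        fderiv_cmp_out hΩ hb h hk hPz hx]
      simp
  obtain ⟨d1, d2, d3⟩ := hD n Ω c q hΩ hc.c1 (contDiff_cmp hΩ hb h hk hQz (PP_contDiff hPc))
    (hcs_cmp hΩ hb h hk hQz) (tsupport_sub hΩ hb h hk hQz)
  have i1 : Integrable (fun x => Δ u x * ψ x) :=
    integrable_mul_of_tsupport hΩ (continuousOn_lap hΩ h.c2) hψ1.continuous hψs hψt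
  have i2 : Integrable ψ := integrable_cmp hΩ hb h hk hPz hPc
  have hq' : ∀ x, x ∈ Ω → fderiv ℝ q x (c x) = ψ x * fderiv ℝ u x (c x) := by
    intro x hx
    rw [hq, fderiv_cmp hΩ h hx (PP_hasDeriv hPc (u x)), hψ, cmp_in hx]
    simp
  have step1 : ∫ x, -(Δ u x * ψ x) ≤ ∫ x, (K * ψ x - fderiv ℝ q x (c x)) := by
    apply integral_mono i1.neg ((i2.const_mul K).sub d1)
    intro x
    show -(Δ u x * ψ x) ≤ K * ψ x - fderiv ℝ q x (c x)
    by_cases hx : x ∈ Ω
    · rw [hq' x hx]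
      have h1 := hle x hx
      have h2 : 0 ≤ ψ x := by rw [hψ, cmp_in hx]; exact hP0 _
      nlinarith
    · have h1 : ψ x = 0 := by rw [hψ, cmp_out hx]
      have h2 : fderiv ℝ q x = 0 := by
        rw [hq]; exact fderiv_cmp_out hΩ hb h hk hQz hx
      rw [h1, h2]
      simp
  have step2 : ∫ x, (K * ψ x - fderiv ℝ q x (c x)) = K * (∫ x, ψ x) + ∫ x, dv c x * q x := by
    rw [integral_sub (i2.const_mul K) d1, d3, integral_const_mul]
    ring
  have step3 : ∫ x, ψ x ≤ ∫ x, Y x := by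
    apply integral_mono i2 hYint
    intro x
    show ψ x ≤ Y x
    by_cases hx : x ∈ Ω
    · rw [hψ, hY, cmp_in hx, cmp_in hx]; exact hP1 _
    · rw [hψ, hY, cmp_out hx, cmp_out hx]
  have step4 : ∫ x, dv c x * q x ≤ n * B * M * (∫ x, Y x) := by
    rw [← integral_const_mul]
    apply integral_mono d2 (hYint.const_mul _)
    intro x
    show dv c x * q x ≤ n * B * M * Y x
    by_cases hx : x ∈ Ω
    · rw [hq, hY, cmp_in hx, cmp_in hx]
      have h1 := hQ1 (u x) (hM x hx)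
      have h2 := hQ0 (u x)
      have h3 := (le_abs_self _).trans (dv_le hc hx)
      have h4 : 0 ≤ (n : ℝ) * B := mul_nonneg (Nat.cast_nonneg n) hc.nonneg
      calc dv c x * Q (u x) ≤ (n * B) * Q (u x) := mul_le_mul_of_nonneg_right h3 h2
        _ ≤ (n * B) * (M * max (u x - k) 0) := mul_le_mul_of_nonneg_left h1 h4
        _ = n * B * M * max (u x - k) 0 := by ring
    · rw [hq, hY, cmp_out hx, cmp_out hx]
      simp
  have hmul : K * (∫ x, ψ x) ≤ K * (∫ x, Y x) := mul_le_mul_of_nonneg_left step3 hK.le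
  rw [e1, hibp, ← integral_neg, hYeq]
  linarith

/-- Cauchy–Schwarz inequality for a function supported on a set of finite measure. -/
theorem cs {g : E n → ℝ} {S : Set (E n)} (hS : MeasurableSet S) (hfin : volume S < ⊤)
    (hg : Integrable g) (hg2 : Integrable (fun x => g x ^ 2)) (h0 : ∀ x, x ∉ S → g x = 0) :
    (∫ x, g x) ^ 2 ≤ volume.real S * ∫ x, g x ^ 2 := by
  have hind : Integrable (S.indicator (fun _ => (1 : ℝ))) :=
    (integrable_indicator_iff hS).2 (integrableOn_const hfin.ne)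
  have key : ∀ a : ℝ, 0 ≤ volume.real S * (a * a) + (-2 * ∫ x, g x) * a + ∫ x, g x ^ 2 := by
    intro a
    have h1 : 0 ≤ ∫ x, (g x - a * S.indicator (fun _ => (1 : ℝ)) x) ^ 2 :=
      integral_nonneg fun x => sq_nonneg _
    have h2 : (fun x => (g x - a * S.indicator (fun _ => (1 : ℝ)) x) ^ 2) =
        fun x => (g x ^ 2 - (2 * a) * g x) + (a * a) * S.indicator (fun _ => (1 : ℝ)) x := by
      funext x
      by_cases hx : x ∈ S
      · rw [indicator_of_mem hx]
        ring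
      · rw [indicator_of_notMem hx, h0 x hx]
        ring
    have i1 : Integrable (fun x => g x ^ 2 - (2 * a) * g x) := hg2.sub (hg.const_mul _)
    have i2 : Integrable (fun x => (a * a) * S.indicator (fun _ => (1 : ℝ)) x) :=
      hind.const_mul _
    rw [h2, integral_add i1 i2, integral_sub hg2 (hg.const_mul _), integral_const_mul,
      integral_const_mul, integral_indicator hS] at h1
    simp only [integral_const, smul_eq_mul, mul_one, measureReal_restrict_apply_univ] at h1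
    linarith
  have h3 := discrim_le_zero key
  unfold discrim at h3
  linarith

theorem t_ENE (hS : S_SOB) (hD : S_DIVG) : S_ENE := by
  intro n hn
  obtain ⟨C₀, hC₀, hsob⟩ := hS n hn
  refine ⟨C₀ ^ 2, by positivity, ?_⟩
  intro Ω c B K M u hΩ hb hc hK h hM hle k hk
  have hn0 : n ≠ 0 := by omega
  rcases Ω.eq_empty_or_nonempty with h0 | ⟨x₀, hx₀⟩
  · have h1 : LV Ω u k = 0 := by
      unfold LV
      rw [h0]
      simp
    rw [h1, h0]
    simp [hn0]
  have hM0 : 0 ≤ M := (h.nonneg x₀ hx₀).trans (hM x₀ hx₀)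
  have hB := hc.nonneg
  set y := ∫ x in Ω, max (u x - k) 0 with hy
  set L := LV Ω u k with hL
  set W := K + n * B * M with hW
  have hW0 : 0 < W := by positivity
  have hL0 : 0 ≤ L := measureReal_nonneg
  have hy0 : 0 ≤ y := integral_nonneg fun x => le_max_right _ _
  have hvΩ : volume Ω < ⊤ := hb.measure_lt_top
  set S : Set (E n) := {x | x ∈ Ω ∧ k < u x} with hSd
  have hSo : IsOpen S := h.c2.continuousOn.isOpen_inter_preimage hΩ isOpen_Ioi
  have hSΩ : S ⊆ Ω := fun x hx => hx.1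
  have hSfin : volume S < ⊤ := (measure_mono hSΩ).trans_lt hvΩ
  have hLS : L = volume.real S := rfl
  have hmc : Continuous (fun s : ℝ => max (s - k) 0) := by fun_prop
  have hmz : ∀ s ≤ k, max (s - k) 0 = 0 := fun s hs => max_eq_right (by linarith)
  set Y := H947R3.cmp Ω (fun s => max (s - k) 0) u with hY
  have hYint : Integrable Y := integrable_cmp hΩ hb h hk hmz hmc
  have hYeq : y = ∫ x, Y x := by
    rw [hy, ← integral_indicator hΩ.measurableSet]
    rfl
  have key : ∀ e : ℝ, 0 < e →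
      (max (y - e * volume.real Ω) 0) ^ (2 * n) ≤ C₀ ^ 2 * (L * (W * y)) ^ n * L ^ 2 := by
    intro e he
    set T := PP (th k e) with hT
    have hTz : ∀ s ≤ k, T s = 0 := PP_zero (th_zero he) hk
    have hTc : ContDiff ℝ 1 T := PP_contDiff (th_cont k e)
    have hT0 : ∀ s, 0 ≤ T s := PP_nonneg (th_cont k e) (th_zero he) hk (th_nonneg k e)
    set φ := H947R3.cmp Ω T u with hφ
    have hφ1 : ContDiff ℝ 1 φ := contDiff_cmp hΩ hb h hk hTz hTc
    have hφs : HasCompactSupport φ := hcs_cmp hΩ hb h hk hTz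
    have hφi : Integrable φ := integrable_cmp hΩ hb h hk hTz hTc.continuous
    have hφ0 : ∀ x, 0 ≤ φ x := by
      intro x
      by_cases hx : x ∈ Ω
      · rw [hφ, cmp_in hx]; exact hT0 _
      · rw [hφ, cmp_out hx]
    have hDc : Continuous (fun x => ‖fderiv ℝ φ x‖) :=
      (hφ1.continuous_fderiv (by norm_num)).norm
    have hDs : HasCompactSupport (fun x => ‖fderiv ℝ φ x‖) := (hφs.fderiv ℝ).norm
    have hDi : Integrable (fun x => ‖fderiv ℝ φ x‖) := hDc.integrable_of_hasCompactSupport hDs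
    have hDi2 : Integrable (fun x => ‖fderiv ℝ φ x‖ ^ 2) := by
      apply (hDc.pow 2).integrable_of_hasCompactSupport
      have h5 : HasCompactSupport (fun x => ‖fderiv ℝ φ x‖ * ‖fderiv ℝ φ x‖) := hDs.mul_right
      have h6 : (fun x => ‖fderiv ℝ φ x‖ * ‖fderiv ℝ φ x‖) = (fun x => ‖fderiv ℝ φ x‖) ^ 2 := by
        funext x; simp [sq]
      exact h6 ▸ h5
    have hout : ∀ x, x ∉ S → ‖fderiv ℝ φ x‖ = 0 := by
      intro x hx
      by_cases hxΩ : x ∈ Ω
      · have h1 : u x ≤ k := by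
          by_contra h2
          exact hx ⟨hxΩ, not_le.1 h2⟩
        rw [hφ, fderiv_cmp hΩ h hxΩ (PP_hasDeriv (th_cont k e) (u x)), th_zero he _ h1,
          zero_smul, norm_zero]
      · rw [hφ, fderiv_cmp_out hΩ hb h hk hTz hxΩ, norm_zero]
    have hcs := cs hSo.measurableSet hSfin hDi hDi2 hout
    have hen := energy hD hΩ hb hc hK h hM hM0 hle hk he
    have hsum : Integrable (fun x => ∑ i, (pd φ i x) ^ 2) := by
      refine integrable_finsetSum _ fun i _ => ?_
      apply ((continuous_pd hφ1 i).pow 2).integrable_of_hasCompactSupport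
      have h5 : HasCompactSupport (fun x => pd φ i x * pd φ i x) :=
        (hasCompactSupport_pd hφs i).mul_right
      have h6 : (fun x => pd φ i x * pd φ i x) = pd φ i ^ 2 := by funext x; simp [sq]
      exact h6 ▸ h5
    have hle2 : ∫ x, ‖fderiv ℝ φ x‖ ^ 2 ≤ W * y := by
      refine le_trans (integral_mono hDi2 hsum fun x => ?_) hen
      exact norm_sq_le_sum _
    set I := ∫ x, ‖fderiv ℝ φ x‖ with hI
    have hI0 : 0 ≤ I := integral_nonneg fun x => norm_nonneg _
    have hI2 : I ^ 2 ≤ L * (W * y) := by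
      rw [hLS]
      exact hcs.trans (mul_le_mul_of_nonneg_left hle2 measureReal_nonneg)
    have hs1 := hsob φ hφ1 hφs
    have habs : ∫ x, |φ x| = ∫ x, φ x := by
      congr 1
      funext x
      exact abs_of_nonneg (hφ0 x)
    rw [habs] at hs1
    set X := ∫ x, φ x with hX
    have hX0 : 0 ≤ X := integral_nonneg hφ0
    have hvol : volume.real {x | φ x ≠ 0} ≤ L := by
      rw [hLS]
      refine measureReal_mono ?_ hSfin.ne
      intro x hx
      by_cases hxΩ : x ∈ Ω
      · refine ⟨hxΩ, ?_⟩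
        by_contra h2
        apply hx
        rw [hφ, cmp_in hxΩ]
        exact hTz _ (not_lt.1 h2)
      · exact absurd (by rw [hφ, cmp_out hxΩ]) hx
    have hs2 : X ^ n ≤ C₀ * I ^ n * L :=
      hs1.trans (mul_le_mul_of_nonneg_left hvol (by positivity))
    have hXge : y - e * volume.real Ω ≤ X := by
      have hindΩ : Integrable (Ω.indicator (fun _ => (1 : ℝ))) :=
        (integrable_indicator_iff hΩ.measurableSet).2 (integrableOn_const hvΩ.ne)
      have h7 : ∫ x, (Y x - e * Ω.indicator (fun _ => (1 : ℝ)) x) ≤ X := by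
        apply integral_mono (hYint.sub (hindΩ.const_mul e)) hφi
        intro x
        show Y x - e * Ω.indicator (fun _ => (1 : ℝ)) x ≤ φ x
        by_cases hx : x ∈ Ω
        · rw [hY, hφ, cmp_in hx, cmp_in hx, indicator_of_mem hx]
          have := PP_th_ge hk he (u x)
          linarith
        · rw [hY, hφ, cmp_out hx, cmp_out hx, indicator_of_notMem hx]
          simp
      rw [integral_sub hYint (hindΩ.const_mul e), integral_const_mul,
        integral_indicator hΩ.measurableSet, ← hYeq] at h7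
      simpa using h7
    have hmax : max (y - e * volume.real Ω) 0 ≤ X := max_le hXge hX0
    calc (max (y - e * volume.real Ω) 0) ^ (2 * n) ≤ X ^ (2 * n) :=
          pow_le_pow_left₀ (le_max_right _ _) hmax _
      _ = (X ^ n) ^ 2 := by ring
      _ ≤ (C₀ * I ^ n * L) ^ 2 := pow_le_pow_left₀ (by positivity) hs2 2
      _ = C₀ ^ 2 * (I ^ 2) ^ n * L ^ 2 := by ring
      _ ≤ C₀ ^ 2 * (L * (W * y)) ^ n * L ^ 2 := by
          apply mul_le_mul_of_nonneg_right _ (sq_nonneg _)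
          apply mul_le_mul_of_nonneg_left _ (sq_nonneg _)
          exact pow_le_pow_left₀ (sq_nonneg _) hI2 n
  have hlim : y ^ (2 * n) ≤ C₀ ^ 2 * (L * (W * y)) ^ n * L ^ 2 := by
    have hcont : Continuous (fun e : ℝ => (max (y - e * volume.real Ω) 0) ^ (2 * n)) := by
      fun_prop
    have ht : Tendsto (fun e : ℝ => (max (y - e * volume.real Ω) 0) ^ (2 * n)) (𝓝[>] 0)
        (𝓝 (y ^ (2 * n))) := by
      have := (hcont.tendsto 0).mono_left (nhdsWithin_le_nhds (s := Ioi 0))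
      simpa [max_eq_left hy0] using this
    refine le_of_tendsto ht ?_
    filter_upwards [self_mem_nhdsWithin] with e he using key e he
  rcases hy0.eq_or_lt with h1 | h1
  · rw [← h1, zero_pow hn0]
    positivity
  · have e1 : y ^ (2 * n) = y ^ n * y ^ n := by ring
    have e2 : C₀ ^ 2 * (L * (W * y)) ^ n * L ^ 2 = (C₀ ^ 2 * W ^ n * L ^ (n + 2)) * y ^ n := by
      rw [mul_pow, mul_pow]
      ring
    rw [e1, e2] at hlim
    exact le_of_mul_le_mul_right hlim (pow_pos h1 n)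

end Pool.Agent.Y348.AR
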